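import Mathlib

namespace Pool.Agent.Results.MP_8a5df5_al.NoMagic

open Matrix

/-- The free complex algebra on the symbols `u i j`. -/
abbrev Fr (n : ℕ) := FreeAlgebra ℂ (Fin n × Fin n)

/-- The symbol `u i j`. -/
noncomputable def gen {n : ℕ} (i j : Fin n) : Fr n := FreeAlgebra.ι ℂ (i, j)

/-- The defining relations of `O(H_n^+)`: `u u^t = u^t u = 1`, and the cubic relations. -/
inductive Rel (n : ℕ) : Fr n → Fr n → Prop
  | row (i j : Fin n) : Rel n (∑ k, gen i k * gen j k) (if i = j then 1 else 0)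
  | col (i j : Fin n) : Rel n (∑ k, gen k i * gen k j) (if i = j then 1 else 0)
  | cubRow (i j k : Fin n) : j ≠ k → Rel n (gen i j * gen i k) 0
  | cubCol (i j k : Fin n) : j ≠ k → Rel n (gen j i * gen k i) 0

/-- The algebra `O(H_n^+)`. -/
abbrev OH (n : ℕ) := RingQuot (Rel n)

/-- The generators of `O(H_n^+)`. -/
noncomputable def u {n : ℕ} (i j : Fin n) : OH n := RingQuot.mkAlgHom ℂ (Rel n) (gen i j)

/-- The algebra `O(PH_n^+)`, generated by all products `u i j * u k l`. -/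
noncomputable def OPH (n : ℕ) : Subalgebra ℂ (OH n) :=
  Algebra.adjoin ℂ {x | ∃ i j k l, x = u i j * u k l}

/-- `A` is generated as an algebra by a finite set of idempotents. -/
def IdemGen (A : Type) [Semiring A] [Algebra ℂ A] : Prop :=
  ∃ S : Set A, S.Finite ∧ (∀ s ∈ S, s * s = s) ∧ Algebra.adjoin ℂ S = ⊤

noncomputable def dd {n : ℕ} (i1 : Fin n) (z : ℂ) (i : Fin n) : Matrix (Fin 2) (Fin 2) ℂ :=
  if i = i1 then !![0, z; z⁻¹, 0] else !![0, 1; 1, 0]

lemma dd_sq {n : ℕ} (i1 : Fin n) {z : ℂ} (hz : z ≠ 0) (i : Fin n) :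
    dd i1 z i * dd i1 z i = 1 := by
  unfold dd
  split_ifs
  · ext a b
    fin_cases a <;> fin_cases b <;> simp [Matrix.mul_apply, Fin.sum_univ_two, hz]
  · ext a b
    fin_cases a <;> fin_cases b <;> simp [Matrix.mul_apply, Fin.sum_univ_two]

noncomputable def pi0 {n : ℕ} (i1 : Fin n) (z : ℂ) : Fr n →ₐ[ℂ] Matrix (Fin 2) (Fin 2) ℂ :=
  FreeAlgebra.lift ℂ (fun p => if p.1 = p.2 then dd i1 z p.1 else 0)

lemma pi0_gen {n : ℕ} (i1 : Fin n) (z : ℂ) (i j : Fin n) :
    pi0 i1 z (gen i j) = if i = j then dd i1 z i else 0 := by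
  simp [pi0, gen]

lemma pi0_rel {n : ℕ} (i1 : Fin n) {z : ℂ} (hz : z ≠ 0) ⦃x y : Fr n⦄ (h : Rel n x y) :
    pi0 i1 z x = pi0 i1 z y := by
  cases h with
  | row i j =>
    simp only [map_sum, map_mul, pi0_gen]
    by_cases hij : i = j
    · subst hij; simp [dd_sq i1 hz]
    · rw [if_neg hij, map_zero]
      refine Finset.sum_eq_zero (fun k _ => ?_)
      by_cases h1 : i = k
      · have : j ≠ k := fun h2 => hij (h1.trans h2.symm)
        simp [this]
      · simp [h1]
  | col i j =>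
    simp only [map_sum, map_mul, pi0_gen]
    by_cases hij : i = j
    · subst hij; simp [dd_sq i1 hz]
    · rw [if_neg hij, map_zero]
      refine Finset.sum_eq_zero (fun k _ => ?_)
      by_cases h1 : k = i
      · have : k ≠ j := fun h2 => hij (h1.symm.trans h2)
        simp [this]
      · simp [h1]
  | cubRow i j k hjk =>
    simp only [map_mul, pi0_gen, map_zero]
    by_cases h1 : i = j
    · have : i ≠ k := fun h2 => hjk (h1.symm.trans h2)
      simp [this]
    · simp [h1]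
  | cubCol i j k hjk =>
    simp only [map_mul, pi0_gen, map_zero]
    by_cases h1 : j = i
    · have : k ≠ i := fun h2 => hjk (h1.trans h2.symm)
      simp [this]
    · simp [h1]

noncomputable def pi1 {n : ℕ} (i1 : Fin n) {z : ℂ} (hz : z ≠ 0) :
    OH n →ₐ[ℂ] Matrix (Fin 2) (Fin 2) ℂ :=
  RingQuot.liftAlgHom ℂ ⟨pi0 i1 z, pi0_rel i1 hz⟩

lemma pi1_u {n : ℕ} (i1 : Fin n) {z : ℂ} (hz : z ≠ 0) (i j : Fin n) :
    pi1 i1 hz (u i j) = if i = j then dd i1 z i else 0 := by
  simp [pi1, u, pi0_gen]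

lemma pi1_tri {n : ℕ} (i1 : Fin n) {z : ℂ} (hz : z ≠ 0) {x : OH n} (hx : x ∈ OPH n) :
    pi1 i1 hz x 1 0 = 0 := by
  induction hx using Algebra.adjoin_induction with
  | mem x hx =>
    obtain ⟨i, j, k, l, rfl⟩ := hx
    rw [map_mul, pi1_u, pi1_u]
    unfold dd
    split_ifs <;> simp [Matrix.mul_apply, Fin.sum_univ_two]
  | algebraMap r => rw [AlgHom.commutes]; simp [Matrix.algebraMap_matrix_apply]
  | add x y _ _ hx hy => simp [hx, hy]
  | mul x y _ _ hx hy => simp [Matrix.mul_apply, Fin.sum_univ_two, hx, hy]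

noncomputable def chi {n : ℕ} (i1 : Fin n) {z : ℂ} (hz : z ≠ 0) : OPH n →ₐ[ℂ] ℂ where
  toFun x := pi1 i1 hz x 0 0
  map_one' := by simp
  map_mul' x y := by simp [Matrix.mul_apply, Fin.sum_univ_two, pi1_tri i1 hz y.2]
  map_zero' := by simp
  map_add' x y := by simp
  commutes' r := by
    have : ((algebraMap ℂ (OPH n) r : OPH n) : OH n) = algebraMap ℂ (OH n) r := rfl
    rw [this, AlgHom.commutes]; simp [Matrix.algebraMap_matrix_apply]

lemma main {n : ℕ} (hn : 2 ≤ n) (S : Set (OPH n)) (hS : S.Finite) (hi : ∀ s ∈ S, s * s = s) :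
    Algebra.adjoin ℂ S ≠ ⊤ := by
  intro htop
  let i0 : Fin n := ⟨0, by omega⟩
  let i1 : Fin n := ⟨1, by omega⟩
  have h01 : i0 ≠ i1 := by simp [i0, i1, Fin.ext_iff]
  have hz : ∀ k : ℕ, ((k : ℂ) + 1) ≠ 0 := fun k => by exact_mod_cast Nat.succ_ne_zero k
  have := hS.to_subtype
  obtain ⟨a, b, hab, h⟩ := Finite.exists_ne_map_eq_of_infinite
    (fun k : ℕ => fun s : S => chi i1 (hz k) s = 0)
  have h01' : ∀ k, ∀ s ∈ S, chi i1 (hz k) s = 0 ∨ chi i1 (hz k) s = 1 := by
    intro k s hs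
    have := congrArg (chi i1 (hz k)) (hi s hs)
    rw [map_mul] at this
    exact (IsIdempotentElem.iff_eq_zero_or_one).1 this
  have heq : chi i1 (hz a) = chi i1 (hz b) := by
    refine AlgHom.ext_of_adjoin_eq_top htop (fun s hs => ?_)
    have h1 : chi i1 (hz a) s = 0 ↔ chi i1 (hz b) s = 0 := by
      have := congrFun h ⟨s, hs⟩
      exact this.to_iff
    rcases h01' a s hs with h2 | h2 <;> rcases h01' b s hs with h3 | h3
    · exact h2.trans h3.symm
    · rw [h1.1 h2] at h3; exact absurd h3 zero_ne_one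
    · rw [h1.2 h3] at h2; exact absurd h2 zero_ne_one
    · exact h2.trans h3.symm
  have hv : ∀ k, chi i1 (hz k) ⟨u i1 i1 * u i0 i0, Algebra.subset_adjoin ⟨_, _, _, _, rfl⟩⟩ =
      (k : ℂ) + 1 := by
    intro k
    show pi1 i1 (hz k) (u i1 i1 * u i0 i0) 0 0 = _
    rw [map_mul, pi1_u, pi1_u]
    simp [dd, h01, Matrix.mul_apply, Fin.sum_univ_two]
  have := hv a
  rw [heq, hv b] at this
  exact hab (by exact_mod_cast (add_right_cancel this).symm)

/-- For `n ≥ 2` the algebra `O(PH_n^+)` is not generated by finitely many idempotents; in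
particular, for any star operation on it, it is not generated as a star algebra by the entries of
a square matrix of idempotents such as a magic unitary. -/
theorem result (n : ℕ) (hn : 2 ≤ n) : ¬ IdemGen (OPH n) :=
  fun ⟨S, h1, h2, h3⟩ => main hn S h1 h2 h3

end Pool.Agent.Results.MP_8a5df5_al.NoMagic
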